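import Pool.Agent.T9h36.SK.Spec

/-!
# Piece (C) of SK: the average over the path
-/

set_option autoImplicit false

namespace Pool.Agent.T9h93.SK

open Finset
open Pool.Agent.T9h34 (Circuit exists_detector)
open Pool.Agent.T9h16 (Leaf)
open Pool.Agent.T9h36.SN (sum_update pathY pathY_mono pathY_succ pathY_update)
open Pool.Agent.T9h36.SK

section
variable {ι E K T Λ : Type} [Fintype ι] [DecidableEq ι] (Ng : K → Set E) (Pg : T → Set E)

open scoped Classical in
theorem step_averageQ [Fintype K] [Nonempty K] [Fintype T] [Nonempty T] (N : ℕ) (δ Q : ℝ)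
    (hQ : 0 ≤ Q)
    (hard : ∀ (D : Circuit Λ), (∀ g ∈ D.gates, g.IsMono) → D.size ≤ N →
      ∀ x : Set E → Λ → Bool, (∀ a, Leaf (fun z => x z a = true)) →
      ((univ.filter fun t : T => D.eval (x (Pg t)) = true).card : ℝ) / Fintype.card T ≤
      δ + Q * (((univ.filter fun k : K => D.eval (x (Ng k)) = true).card : ℝ) /
        Fintype.card K))
    (C : Circuit Λ) (hs : C.size + C.numReads + 1 ≤ N)
    (X : (ι → Set E) → Λ → Bool)
    (mono : ∀ y y', (∀ i, y i ⊆ y' i) → ∀ a, X y a = true → X y' a = true)
    (leaf : ∀ e, (∃ t : Bool, ∀ y, X y e = t) ∨ ∃ i b, ∀ y, X y e = true ↔ b ∈ y i) (β : ι) :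
    ∑ ω : ι → K, (∑ t : T, if C.eval (X (Function.update
        (pathY Ng ω (Fintype.equivFin ι β).val) β (Pg t))) = true then (1 : ℝ) else 0) /
          Fintype.card T ≤
      ∑ ω : ι → K, (δ + Q * ((if C.eval (X (pathY Ng ω ((Fintype.equivFin ι β).val + 1))) = true
          then (1 : ℝ) else 0) +
        if C.reads (X (pathY Ng ω (Fintype.equivFin ι β).val)) ≠
          C.reads (X (pathY Ng ω ((Fintype.equivFin ι β).val + 1))) then (1 : ℝ) else 0)) := by
  have hK : (0 : ℝ) < Fintype.card K := by exact_mod_cast Fintype.card_pos
  have hT : (0 : ℝ) < Fintype.card T := by exact_mod_cast Fintype.card_pos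
  -- one term
  have hone : ∀ ω : ι → K,
      Fintype.card K * ((∑ t : T, if C.eval (X (Function.update
        (pathY Ng ω (Fintype.equivFin ι β).val) β (Pg t))) = true then (1 : ℝ) else 0) /
          Fintype.card T) ≤
      Fintype.card K * δ + Q * ((∑ k : K, (if C.eval (X (Function.update
        (pathY Ng ω (Fintype.equivFin ι β).val) β (Ng k))) = true then (1 : ℝ) else 0)) +
        ∑ k : K, (if C.reads (X (pathY Ng ω (Fintype.equivFin ι β).val)) ≠
        C.reads (X (Function.update (pathY Ng ω (Fintype.equivFin ι β).val) β (Ng k)))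
          then (1 : ℝ) else 0)) := by
    intro ω
    obtain ⟨y, hy⟩ : ∃ y, y = pathY Ng ω (Fintype.equivFin ι β).val := ⟨_, rfl⟩
    have hyβ : y β = ∅ := by
      rw [hy, pathY, if_neg (lt_irrefl _)]
    rw [← hy]
    obtain ⟨D, hD1, hD2, hD3, hD4⟩ := exists_detector C (X y)
    have hsub : ∀ z i, y i ⊆ Function.update y β z i := by
      intro z i
      by_cases hi : i = β
      · subst hi
        rw [hyβ]
        exact Set.empty_subset _
      · rw [Function.update_of_ne hi]
    have hleaf : ∀ a, Leaf (fun z => X (Function.update y β z) a = true) := by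
      intro a
      rcases leaf a with ⟨t, ht⟩ | ⟨i, v, hv⟩
      · refine Or.inr ⟨t = true, fun z => ?_⟩
        change X _ a = true ↔ _
        rw [ht]
      · by_cases hib : i = β
        · subst hib
          left
          refine ⟨v, fun z => ?_⟩
          change X _ a = true ↔ _
          rw [hv, Function.update_self]
        · right
          refine ⟨v ∈ y i, fun z => ?_⟩
          change X _ a = true ↔ _
          rw [hv, Function.update_of_ne hib]
    have h1 := hard D hD1 (hD2.trans hs) (fun z => X (Function.update y β z)) hleaf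
    have h2 : (∑ t : T, if C.eval (X (Function.update y β (Pg t))) = true then (1 : ℝ) else 0) ≤
        ((univ.filter fun t : T => D.eval (X (Function.update y β (Pg t))) = true).card : ℝ) := by
      rw [card_filter]
      push_cast
      apply sum_le_sum
      intro t _
      by_cases hc : C.eval (X (Function.update y β (Pg t))) = true
      · rw [if_pos hc, if_pos]
        by_contra hcon
        rw [Bool.not_eq_true] at hcon
        have := (hD3 _ (fun i hi => mono _ _ (hsub _) i hi) hcon).2
        rw [hc] at this
        exact absurd this (by simp)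
      · rw [if_neg hc]
        split_ifs <;> norm_num
    have h3 : ((univ.filter fun k : K => D.eval (X (Function.update y β (Ng k))) = true).card : ℝ)
        ≤ (∑ k : K, if C.eval (X (Function.update y β (Ng k))) = true then (1 : ℝ) else 0) +
        ∑ k : K, (if C.reads (X y) ≠ C.reads (X (Function.update y β (Ng k)))
          then (1 : ℝ) else 0) := by
      rw [card_filter]
      push_cast
      rw [← sum_add_distrib]
      apply sum_le_sum
      intro k _
      by_cases hd : D.eval (X (Function.update y β (Ng k))) = true
      · rw [if_pos hd]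
        by_cases hr : C.reads (X y) = C.reads (X (Function.update y β (Ng k)))
        · have hc := hD4 _ hr.symm hd
          rw [if_pos hc]
          split_ifs <;> norm_num
        · rw [if_pos hr]
          split_ifs <;> norm_num
      · rw [if_neg hd]
        split_ifs <;> norm_num
    have h4 : (Fintype.card K : ℝ) *
        (((univ.filter fun t : T => D.eval (X (Function.update y β (Pg t))) = true).card : ℝ) /
          Fintype.card T) ≤ Fintype.card K * δ + Q *
        ((univ.filter fun k : K => D.eval (X (Function.update y β (Ng k))) = true).card : ℝ) := by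
      refine (mul_le_mul_of_nonneg_left h1 hK.le).trans (le_of_eq ?_)
      field_simp
    have h6 := mul_le_mul_of_nonneg_left h3 hQ
    have h5 : (Fintype.card K : ℝ) * ((∑ t : T, if C.eval (X (Function.update y β (Pg t))) = true
        then (1 : ℝ) else 0) / Fintype.card T) ≤ Fintype.card K *
        (((univ.filter fun t : T => D.eval (X (Function.update y β (Pg t))) = true).card : ℝ) /
          Fintype.card T) := by gcongr
    linarith
  -- sum over all
  have hsum := sum_le_sum fun ω (_ : ω ∈ (univ : Finset (ι → K))) => hone ω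
  have e1 : ∀ ω : ι → K, ∀ k : K,
      X (Function.update (pathY Ng ω (Fintype.equivFin ι β).val) β (Ng k)) =
        X (pathY Ng (Function.update ω β k) ((Fintype.equivFin ι β).val + 1)) := by
    intro ω k
    rw [pathY_succ, pathY_update, Function.update_self]
  have e2 : ∀ ω : ι → K, ∀ k : K,
      X (pathY Ng ω (Fintype.equivFin ι β).val) =
        X (pathY Ng (Function.update ω β k) (Fintype.equivFin ι β).val) := by
    intro ω k
    rw [pathY_update]
  have s1 : ∑ ω : ι → K, ∑ k : K, (if C.eval (X (Function.update
        (pathY Ng ω (Fintype.equivFin ι β).val) β (Ng k))) = true then (1 : ℝ) else 0) =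
      Fintype.card K * ∑ ω : ι → K, (if C.eval (X (pathY Ng ω ((Fintype.equivFin ι β).val + 1)))
        = true then (1 : ℝ) else 0) := by
    rw [← sum_update β]
    apply sum_congr rfl
    intro ω _
    apply sum_congr rfl
    intro k _
    rw [e1]
  have s2 : ∑ ω : ι → K, ∑ k : K, (if C.reads (X (pathY Ng ω (Fintype.equivFin ι β).val)) ≠
        C.reads (X (Function.update (pathY Ng ω (Fintype.equivFin ι β).val) β (Ng k)))
          then (1 : ℝ) else 0) =
      Fintype.card K * ∑ ω : ι → K, (if C.reads (X (pathY Ng ω (Fintype.equivFin ι β).val)) ≠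
        C.reads (X (pathY Ng ω ((Fintype.equivFin ι β).val + 1))) then (1 : ℝ) else 0) := by
    rw [← sum_update β]
    apply sum_congr rfl
    intro ω _
    apply sum_congr rfl
    intro k _
    rw [e1, ← e2 ω k]
  have e3 : ∑ ω : ι → K, ((Fintype.card K : ℝ) * δ + Q * ((∑ k : K, (if C.eval (X (Function.update
        (pathY Ng ω (Fintype.equivFin ι β).val) β (Ng k))) = true then (1 : ℝ) else 0)) +
        ∑ k : K, (if C.reads (X (pathY Ng ω (Fintype.equivFin ι β).val)) ≠
        C.reads (X (Function.update (pathY Ng ω (Fintype.equivFin ι β).val) β (Ng k)))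
          then (1 : ℝ) else 0))) = Fintype.card K * ∑ ω : ι → K, (δ + Q *
        ((if C.eval (X (pathY Ng ω ((Fintype.equivFin ι β).val + 1))) = true
          then (1 : ℝ) else 0) +
        if C.reads (X (pathY Ng ω (Fintype.equivFin ι β).val)) ≠
          C.reads (X (pathY Ng ω ((Fintype.equivFin ι β).val + 1))) then (1 : ℝ) else 0)) := by
    simp only [sum_add_distrib, ← mul_sum]
    rw [s1, s2]
    ring
  rw [← mul_sum, e3] at hsum
  exact le_of_mul_le_mul_left hsum hK

open Classical in
theorem path : S_Path := by
  intro ι E K T Λ _ _ _ _ _ _ Ng Pg N δ Q hQ hard C hs X mono leaf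
  rw [sum_comm]
  refine (sum_le_sum fun β _ =>
    step_averageQ Ng Pg N δ Q hQ hard C hs X mono leaf β).trans (le_of_eq ?_)
  rw [sum_comm]
  simp only [sum_add_distrib, ← mul_sum, sum_const, card_univ, nsmul_eq_mul]
  ring

end

end Pool.Agent.T9h93.SK
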