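import Pool.Agent.T9h36.SK.Spec

/-!
# Piece (E) of SK: the simple puzzle
-/

set_option autoImplicit false

namespace Pool.Agent.T9h93.SK

open Finset
open Pool.Agent.T9h36.SK
open scoped Fin.NatCast Fin.CommRing

/-- If `ρ + β ρ` is injective (`β ρ ∈ {0, 1}`) on the numbers mod `k` then `β` is constant. -/
theorem const_of_inj {k : ℕ} (β : Fin (k + 2) → Bool)
    (hinj : Function.Injective (fun ρ : Fin (k + 2) => ρ + (if β ρ = true then 1 else 0))) :
    ∀ ρ σ, β ρ = β σ := by
  have step : ∀ ρ, β ρ = true → β (ρ + 1) = true := by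
    intro ρ h
    by_contra h'
    have h1 : ρ = ρ + 1 := hinj (by simp [h, h'])
    have h2 : (1 : Fin (k + 2)) = 0 := by simpa using h1.symm
    exact absurd h2 (by simp)
  have all : ∀ (n : ℕ) (ρ : Fin (k + 2)), β ρ = true → β (ρ + (n : Fin (k + 2))) = true := by
    intro n
    induction n with
    | zero => intro ρ h; simpa using h
    | succ n ih =>
      intro ρ h
      have := step _ (ih ρ h)
      rwa [add_assoc, ← Nat.cast_succ] at this
  have key : ∀ ρ σ, β ρ = true → β σ = true := by
    intro ρ σ h
    have h2 := all (σ - ρ).val ρ h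
    rwa [Fin.cast_val_eq_self, add_sub_cancel] at h2
  intro ρ σ
  cases hρ : β ρ
  · cases hσ : β σ
    · rfl
    · rw [key σ ρ hσ] at hρ
      exact absurd hρ (by simp)
  · rw [key ρ σ hρ]

theorem puz : S_Puz := by
  intro k' m hk
  obtain ⟨k, rfl⟩ : ∃ k, k' = k + 2 := ⟨k' - 2, by omega⟩
  -- the codes
  let cd : Fin (2 ^ m) ≃ (Fin m → Fin 2) := finFunctionFinEquiv.symm
  let b : Fin (2 ^ m) → Fin (m + 1) → Bool := fun j g =>
    if h : (g : ℕ) < m then decide (cd j ⟨g, h⟩ = 1) else false
  let e : Fin ((k + 2) * (m + 1)) ≃ Fin (k + 2) × Fin (m + 1) := finProdFinEquiv.symm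
  let pt : Fin (2 ^ m) → Fin (k + 2) → Fin (m + 1) → Fin ((k + 2) * (m + 1)) := fun j r g =>
    e.symm (r + (if b j g = true then 1 else 0), g)
  have hpt : ∀ j r g j' r' g', pt j r g = pt j' r' g' ↔
      (r + (if b j g = true then 1 else 0) = r' + (if b j' g' = true then 1 else 0) ∧ g = g') := by
    intro j r g j' r' g'
    simp only [pt, e.symm.injective.eq_iff, Prod.mk.injEq]
  refine ⟨⟨fun j r => univ.image (pt j r), ?_, ?_, ?_⟩⟩
  · intro j r
    rw [card_image_of_injective]
    · simp
    · intro g g' h
      exact ((hpt _ _ _ _ _ _).1 h).2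
  · intro j r r' hr
    rw [disjoint_left]
    intro x hx hx'
    obtain ⟨g, -, rfl⟩ := mem_image.1 hx
    obtain ⟨g', -, h⟩ := mem_image.1 hx'
    obtain ⟨h1, h2⟩ := (hpt _ _ _ _ _ _).1 h
    subst h2
    exact hr (add_right_cancel h1).symm
  · intro j r hdis
    have hinj : ∀ g : Fin (m + 1), Function.Injective
        (fun a => r a + (if b (j a) g = true then 1 else 0)) := by
      intro g a a' h
      by_contra hne
      have h1 := disjoint_left.1 (hdis a a' hne)
      exact h1 (mem_image_of_mem (pt (j a) (r a)) (mem_univ g))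
        (mem_image.2 ⟨g, mem_univ _, (hpt _ _ _ _ _ _).2 ⟨h.symm, rfl⟩⟩)
    have hr : Function.Injective r := by
      have h1 := hinj (Fin.last m)
      have h2 : ∀ a, b (j a) (Fin.last m) = false := by
        intro a
        simp [b]
      simpa [h2] using h1
    have hrb : Function.Bijective r := Finite.injective_iff_bijective.1 hr
    let ρ : Fin (k + 2) ≃ Fin (k + 2) := Equiv.ofBijective r hrb
    have hconst : ∀ g a a', b (j a) g = b (j a') g := by
      intro g a a'
      have h1 := const_of_inj (fun x => b (j (ρ.symm x)) g) (by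
        intro x y hxy
        have hx : r (ρ.symm x) = x := ρ.apply_symm_apply x
        have hy : r (ρ.symm y) = y := ρ.apply_symm_apply y
        have h2 : ρ.symm x = ρ.symm y := by
          apply hinj g
          dsimp only at hxy ⊢
          rw [hx, hy]
          exact hxy
        exact ρ.symm.injective h2) (ρ a) (ρ a')
      simpa using h1
    intro a a'
    refine ⟨?_, fun h => hr.ne h⟩
    apply cd.injective
    funext g
    have h1 := hconst ⟨g, by omega⟩ a a'
    simp only [b, g.2, dif_pos] at h1
    have h2 : (cd (j a) g = 1 ↔ cd (j a') g = 1) := by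
      simpa using h1
    generalize cd (j a) g = u at *
    generalize cd (j a') g = v at *
    revert h2
    revert u v
    decide

end Pool.Agent.T9h93.SK
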